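import Mathlib

/-!
# Mahler measures and relative norms (helper10)

If `E = ℚ(a)` is a number field, `F` a subfield and `c` the norm of the algebraic integer `a` to `F`, then the
Mahler measure of `c` is at most the one of `a`.
-/

set_option autoImplicit false

namespace Pool.Agent.H10.LE

open Polynomial Module

/-- the local factor -/
noncomputable def h (x : ℂ) : ℝ := max 1 ‖x‖

theorem one_le_h (x : ℂ) : 1 ≤ h x := le_max_left _ _

theorem h_nonneg (x : ℂ) : 0 ≤ h x := zero_le_one.trans (one_le_h x)

theorem h_mul (x y : ℂ) : h (x * y) ≤ h x * h y := by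
  unfold h
  rw [norm_mul]
  refine max_le ?_ ?_
  · exact one_le_mul_of_one_le_of_one_le (le_max_left _ _) (le_max_left _ _)
  · exact mul_le_mul (le_max_right _ _) (le_max_right _ _) (norm_nonneg _)
      (zero_le_one.trans (le_max_left _ _))

theorem h_prod {ι : Type*} (s : Finset ι) (f : ι → ℂ) : h (∏ i ∈ s, f i) ≤ ∏ i ∈ s, h (f i) := by
  classical
  induction s using Finset.induction_on with
  | empty => simp [h]
  | insert i s hi ih =>
    rw [Finset.prod_insert hi, Finset.prod_insert hi]
    exact (h_mul _ _).trans (mul_le_mul_of_nonneg_left ih (h_nonneg _))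

theorem one_le_prod {ι : Type*} (s : Finset ι) (f : ι → ℂ) : 1 ≤ ∏ i ∈ s, h (f i) := by
  classical
  induction s using Finset.induction_on with
  | empty => simp
  | insert i s hi ih =>
    rw [Finset.prod_insert hi]
    exact one_le_mul_of_one_le_of_one_le (one_le_h _) ih

theorem prod_sub {ι : Type*} [DecidableEq ι] {s t : Finset ι} (hst : s ⊆ t) (f : ι → ℂ) :
    ∏ i ∈ s, h (f i) ≤ ∏ i ∈ t, h (f i) := by
  rw [← Finset.prod_sdiff hst]
  exact le_mul_of_one_le_left (Finset.prod_nonneg fun i _ => h_nonneg _) (one_le_prod _ _)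

/-- the product over a set of values is at most the product over the indices -/
theorem prod_values {ι : Type*} [Fintype ι] (g : ι → ℂ) (S : Finset ℂ)
    (hS : ∀ z ∈ S, ∃ i, g i = z) : ∏ z ∈ S, h z ≤ ∏ i, h (g i) := by
  classical
  choose s hs using hS
  have hinj : Function.Injective (fun z : S => s z.1 z.2) := by
    intro z w hzw
    apply Subtype.ext
    rw [← hs z.1 z.2, ← hs w.1 w.2]
    exact congrArg g hzw
  have h1 : ∏ z ∈ S, h z = ∏ i ∈ S.attach.image (fun z => s z.1 z.2), h (g i) := by
    rw [Finset.prod_image (fun z _ w _ hzw => hinj hzw), ← Finset.prod_attach]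
    refine Finset.prod_congr rfl fun z _ => ?_
    rw [hs z.1 z.2]
  rw [h1]
  exact prod_sub (Finset.subset_univ _) g

/-- the height product of an element of a number field -/
noncomputable def H (E : Type) [Field E] [NumberField E] (x : E) : ℝ := ∏ σ : E →+* ℂ, h (σ x)

/-- norms do not increase the height product -/
theorem H_norm (E F : Type) [Field E] [Field F] [NumberField E] [NumberField F] [Algebra F E] (x : E) :
    H F (Algebra.norm F x) ≤ H E x := by
  classical
  have e1 : ∀ (K : Type) [Field K] [NumberField K] (y : K), H K y = ∏ σ : K →ₐ[ℚ] ℂ, h (σ y) := by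
    intro K _ _ y
    unfold H
    refine Fintype.prod_equiv (RingHom.equivRatAlgHom K ℂ) _ _ fun σ => ?_
    rfl
  rw [e1 F, e1 E]
  rw [Fintype.prod_equiv (algHomEquivSigma (A := ℚ) (B := F) (C := E) (D := ℂ))
    (fun σ : E →ₐ[ℚ] ℂ => h (σ x)) (fun σ => h (σ.2 x)), ← Finset.univ_sigma_univ, Finset.prod_sigma]
  · refine Finset.prod_le_prod (fun τ _ => h_nonneg _) fun τ _ => ?_
    letI : Algebra F ℂ := τ.toRingHom.toAlgebra
    have h1 : τ (Algebra.norm F x) = ∏ σ : E →ₐ[F] ℂ, σ x := by
      have h2 := Algebra.norm_eq_prod_embeddings F ℂ x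
      exact h2
    rw [h1]
    exact h_prod _ _
  · intro σ
    rfl

/-- Mahler measure of the minimal polynomial of an integer of a field -/
theorem M_le_H (F : Type) [Field F] [NumberField F] (c : F) (hc : IsIntegral ℤ c) :
    ((minpoly ℤ c).map (Int.castRingHom ℂ)).mahlerMeasure ≤ H F c := by
  classical
  rw [mahlerMeasure_eq_leadingCoeff_mul_prod_roots,
    ((minpoly.monic hc).map (Int.castRingHom ℂ)).leadingCoeff, norm_one, one_mul]
  have hq : (minpoly ℤ c).map (Int.castRingHom ℂ) = (minpoly ℚ c).map (algebraMap ℚ ℂ) := by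
    rw [minpoly.isIntegrallyClosed_eq_field_fractions' ℚ hc, Polynomial.map_map]
    congr 1
  have hsep : ((minpoly ℤ c).map (Int.castRingHom ℂ)).Separable := by
    rw [hq, separable_map]
    exact (minpoly.irreducible (hc.tower_top)).separable
  have hnd := nodup_roots hsep
  have h1 : (((minpoly ℤ c).map (Int.castRingHom ℂ)).roots.map (fun a => max 1 ‖a‖)).prod =
      ∏ z ∈ ((minpoly ℤ c).map (Int.castRingHom ℂ)).roots.toFinset, h z := by
    rw [Finset.prod_eq_multiset_prod, Multiset.toFinset_val, Multiset.dedup_eq_self.2 hnd]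
    rfl
  rw [h1]
  refine prod_values (fun σ : F →+* ℂ => σ c) _ fun z hz => ?_
  rw [Multiset.mem_toFinset, hq] at hz
  have h2 := NumberField.Embeddings.range_eval_eq_rootSet_minpoly F ℂ c
  have h3 : z ∈ (minpoly ℚ c).rootSet ℂ := by
    rw [rootSet_def, Finset.mem_coe, Multiset.mem_toFinset]
    exact hz
  rw [← h2] at h3
  exact h3

/-- the height product of a generator -/
theorem H_le_M (E : Type) [Field E] [NumberField E] (a : E) (ha : IntermediateField.adjoin ℚ {a} = ⊤)
    (p : ℤ[X]) (hp : p.Monic) (hpa : aeval a p = 0) :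
    H E a ≤ (p.map (Int.castRingHom ℂ)).mahlerMeasure := by
  classical
  have hinj : Function.Injective (fun σ : E →+* ℂ => σ a) := by
    intro σ τ hστ
    have htop : Algebra.adjoin ℚ {a} = ⊤ := by
      have h2 := IntermediateField.adjoin_simple_toSubalgebra_of_isAlgebraic
        (F := ℚ) (α := a) (Algebra.IsAlgebraic.isAlgebraic a)
      rw [ha, IntermediateField.top_toSubalgebra] at h2
      exact h2.symm
    have h1 : σ.toRatAlgHom = τ.toRatAlgHom := by
      refine AlgHom.ext_of_adjoin_eq_top htop ?_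
      intro x hx
      rw [Set.mem_singleton_iff] at hx
      subst hx
      exact hστ
    ext x
    exact DFunLike.congr_fun h1 x
  have h1 : H E a = ∏ z ∈ (Finset.univ : Finset (E →+* ℂ)).image (fun σ => σ a), h z := by
    rw [Finset.prod_image (fun σ _ τ _ hστ => hinj hστ)]
    rfl
  rw [h1, mahlerMeasure_eq_leadingCoeff_mul_prod_roots,
    (hp.map (Int.castRingHom ℂ)).leadingCoeff, norm_one, one_mul]
  set S := (Finset.univ : Finset (E →+* ℂ)).image (fun σ => σ a) with hS
  have hp0 : p.map (Int.castRingHom ℂ) ≠ 0 := (hp.map _).ne_zero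
  have hle : S.val ≤ (p.map (Int.castRingHom ℂ)).roots := by
    rw [Multiset.le_iff_subset S.nodup]
    intro z hz
    rw [Finset.mem_val, hS, Finset.mem_image] at hz
    obtain ⟨σ, _, rfl⟩ := hz
    rw [mem_roots hp0, IsRoot.def, eval_map]
    have h2 : σ (aeval a p) = 0 := by rw [hpa, map_zero]
    rw [aeval_def, hom_eval₂] at h2
    have h3 : σ.comp (algebraMap ℤ E) = Int.castRingHom ℂ := RingHom.ext_int _ _
    rw [h3] at h2
    exact h2
  obtain ⟨t, ht⟩ := Multiset.le_iff_exists_add.mp hle
  rw [ht, Multiset.map_add, Multiset.prod_add]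
  have h4 : 1 ≤ (t.map (fun a => max 1 ‖a‖)).prod := by
    refine Multiset.prod_induction (fun r : ℝ => 1 ≤ r) _
        (fun x y hx hy => one_le_mul_of_one_le_of_one_le hx hy) le_rfl ?_
    intro r hr
    rw [Multiset.mem_map] at hr
    obtain ⟨b, _, rfl⟩ := hr
    exact le_max_left _ _
  exact le_mul_of_one_le_right (Finset.prod_nonneg fun z _ => h_nonneg z) h4

/-- norms do not increase the Mahler measure -/
theorem M_norm (E F : Type) [Field E] [Field F] [NumberField E] [NumberField F] [Algebra F E] (a : E)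
    (ha : IntermediateField.adjoin ℚ {a} = ⊤) (p : ℤ[X]) (hp : p.Monic) (hpa : aeval a p = 0) :
    ((minpoly ℤ (Algebra.norm F a)).map (Int.castRingHom ℂ)).mahlerMeasure ≤
      (p.map (Int.castRingHom ℂ)).mahlerMeasure := by
  have hint : IsIntegral ℤ a := ⟨p, hp, hpa⟩
  exact (M_le_H F _ (Algebra.isIntegral_norm F hint)).trans ((H_norm E F a).trans (H_le_M E a ha p hp hpa))

end Pool.Agent.H10.LE
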