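import Mathlib
import Pool.Agent.H10.LE.Norm
import Pool.Graph.R_pool_sql_team_seeded_3997aac3.Q168.LA.Final

/-!
# Lehmer's problem and relative norms (helper10)
-/

set_option autoImplicit false

namespace Pool.Agent.H10.LE

open Polynomial Module

/-- reduction to algebraic integers -/
theorem red {f : ℤ[X]} (hf : f ≠ 0) {α : ℂ} (hα : aeval α f = 0) :
    2 ≤ (f.map (Int.castRingHom ℂ)).mahlerMeasure ∨
      (IsIntegral ℤ α ∧ ((minpoly ℤ α).map (Int.castRingHom ℂ)).mahlerMeasure ≤
        (f.map (Int.castRingHom ℂ)).mahlerMeasure) := by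
  have hinjZ : Function.Injective (Int.castRingHom ℂ) := RingHom.injective_int _
  by_cases hbig : 2 ≤ |f.leadingCoeff|
  · left
    rw [mahlerMeasure_eq_leadingCoeff_mul_prod_roots]
    have h0 : ‖(f.map (Int.castRingHom ℂ)).leadingCoeff‖ = |((f.leadingCoeff : ℤ) : ℝ)| := by
      rw [leadingCoeff_map_of_injective hinjZ]
      simp
    rw [h0]
    have h1 : (2 : ℝ) ≤ |((f.leadingCoeff : ℤ) : ℝ)| := by exact_mod_cast hbig
    have h2 := Pool.Agent.Q168.LA.one_le_multiset (f.map (Int.castRingHom ℂ)).roots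
    nlinarith
  right
  have hlf0 : f.leadingCoeff ≠ 0 := leadingCoeff_ne_zero.mpr hf
  have hint : IsIntegral ℤ α := by
    have h1 : f.leadingCoeff = 1 ∨ f.leadingCoeff = -1 := by
      have h2 : |f.leadingCoeff| = 1 := by
        have := Int.one_le_abs hlf0
        omega
      exact (abs_eq (by norm_num)).mp h2
    rcases h1 with h1 | h1
    · exact ⟨f, h1, hα⟩
    · refine ⟨-f, ?_, ?_⟩
      · rw [Monic, leadingCoeff_neg, h1]
        norm_num
      · rw [eval₂_neg, neg_eq_zero]
        exact hα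
  refine ⟨hint, ?_⟩
  obtain ⟨q, hq⟩ : minpoly ℤ α ∣ f := minpoly.isIntegrallyClosed_dvd hint hα
  have hq0 : q ≠ 0 := by
    rintro rfl
    rw [mul_zero] at hq
    exact hf hq
  conv_rhs => rw [hq]
  rw [Polynomial.map_mul, mahlerMeasure_mul]
  exact le_mul_of_one_le_right (mahlerMeasure_nonneg _) (one_le_mahlerMeasure_of_ne_zero hq0)

/-- `α` is a zero of a nonzero polynomial of degree at most `d` with coefficients in a cyclotomic field -/
def Deg (d : ℕ) (α : ℂ) : Prop :=
  ∃ N : ℕ, 0 < N ∧ ∃ g : ℂ[X], g ≠ 0 ∧ g.natDegree ≤ d ∧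
    (∀ i, g.coeff i ∈ IntermediateField.adjoin ℚ {z : ℂ | z ^ N = 1}) ∧ g.eval α = 0

theorem Deg.mem {d : ℕ} {β γ : ℂ} (hβ : Deg d β) (hγ : γ ∈ IntermediateField.adjoin ℚ {β}) :
    Deg d γ := by
  obtain ⟨N, hN, g, hg0, hgd, hgc, hgβ⟩ := hβ
  refine ⟨N, hN, ?_⟩
  set K : IntermediateField ℚ ℂ := IntermediateField.adjoin ℚ {z : ℂ | z ^ N = 1} with hK
  have hlift : g ∈ Polynomial.lifts (algebraMap K ℂ) := by
    rw [Polynomial.lifts_iff_coeff_lifts]
    intro i
    exact ⟨⟨g.coeff i, hgc i⟩, rfl⟩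
  obtain ⟨g', hg'⟩ := hlift
  have hg'' : g'.map (algebraMap K ℂ) = g := hg'
  have hg'0 : g' ≠ 0 := by
    rintro rfl
    rw [Polynomial.map_zero] at hg''
    exact hg0 hg''.symm
  have hβ' : aeval β g' = 0 := by
    rw [aeval_def, ← eval_map, hg'']
    exact hgβ
  have hint : IsIntegral K β := (IsAlgebraic.isIntegral ⟨g', hg'0, hβ'⟩)
  have hdeg : (minpoly K β).natDegree ≤ d := by
    refine le_trans (natDegree_le_of_dvd (minpoly.dvd K β hβ') hg'0) ?_
    rw [← hg'', natDegree_map] at hgd
    exact hgd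
  have hfr : finrank K (IntermediateField.adjoin K {β}) ≤ d := by
    rw [IntermediateField.adjoin.finrank hint]
    exact hdeg
  have hfd : FiniteDimensional K (IntermediateField.adjoin K {β}) :=
    IntermediateField.adjoin.finiteDimensional hint
  have hle : IntermediateField.adjoin ℚ {β} ≤
      (IntermediateField.adjoin K {β}).restrictScalars ℚ := by
    rw [IntermediateField.adjoin_le_iff]
    intro x hx
    rw [Set.mem_singleton_iff] at hx
    rw [hx]
    exact IntermediateField.mem_adjoin_simple_self K β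
  have hγ' : γ ∈ IntermediateField.adjoin K {β} := hle hγ
  set c : IntermediateField.adjoin K {β} := ⟨γ, hγ'⟩ with hc
  have hci : IsIntegral K c := Algebra.IsIntegral.isIntegral c
  have hmc : minpoly K γ = minpoly K c :=
    (minpoly.algebraMap_eq (algebraMap (IntermediateField.adjoin K {β}) ℂ).injective c)
  have hγi : IsIntegral K γ := by
    have := hci.map (IntermediateField.val (IntermediateField.adjoin K {β}))
    exact this
  refine ⟨(minpoly K γ).map (algebraMap K ℂ), ?_, ?_, ?_, ?_⟩
  · rw [Polynomial.map_ne_zero_iff (algebraMap K ℂ).injective]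
    exact minpoly.ne_zero hγi
  · rw [natDegree_map, hmc]
    exact (minpoly.natDegree_le c).trans hfr
  · intro i
    rw [coeff_map]
    exact ((minpoly K γ).coeff i).2
  · rw [eval_map]
    exact minpoly.aeval K γ

/-- the norm form -/
theorem norm_case (E F : Type) [Field E] [Field F] [NumberField E] [NumberField F] [Algebra F E]
    (ι : E →+* ℂ) (a : E) (ha : IntermediateField.adjoin ℚ {a} = ⊤) (ha0 : a ≠ 0) {f : ℤ[X]}
    (hf : f ≠ 0) (hfa : aeval (ι a) f = 0)
    (hroot : ∀ n : ℕ, 0 < n → (Algebra.norm F a) ^ n ≠ 1)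
    (hdeg : Deg 3 (ι (algebraMap F E (Algebra.norm F a)))) :
    1.21 < (f.map (Int.castRingHom ℂ)).mahlerMeasure := by
  rcases red hf hfa with h2 | ⟨hint, hle⟩
  · norm_num at h2 ⊢
    linarith
  have hιinj : Function.Injective ι := ι.injective
  have hinta : IsIntegral ℤ a := by
    have := (isIntegral_algHom_iff (RingHom.toIntAlgHom ι) hιinj (x := a)).1 hint
    exact this
  have hm : minpoly ℤ (ι a) = minpoly ℤ a :=
    minpoly.algHom_eq (RingHom.toIntAlgHom ι) hιinj a
  have h1 := M_norm E F a ha (minpoly ℤ a) (minpoly.monic hinta) (minpoly.aeval ℤ a)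
  rw [hm] at hle
  refine lt_of_lt_of_le ?_ (h1.trans hle)
  set c := Algebra.norm F a with hc
  have hci : IsIntegral ℤ c := Algebra.isIntegral_norm F hinta
  have hinj2 : Function.Injective (ι.comp (algebraMap F E)) := RingHom.injective _
  have hc0 : c ≠ 0 := by
    rw [hc]
    exact Algebra.norm_ne_zero_iff.2 ha0
  obtain ⟨N, hN, g, hg0, hg3, hgc, hgα⟩ := hdeg
  refine Pool.Agent.Q168.LA.main (f := minpoly ℤ c) (minpoly.ne_zero hci)
    (α := ι (algebraMap F E c)) ?_ ?_ ?_ hN hg0 hg3 hgc hgα
  · have h3 := minpoly.aeval ℤ c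
    have h4 := congrArg (ι.comp (algebraMap F E)) h3
    rw [map_zero, aeval_def, hom_eval₂] at h4
    rw [aeval_def]
    have h5 : (ι.comp (algebraMap F E)).comp (algebraMap ℤ F) = algebraMap ℤ ℂ := RingHom.ext_int _ _
    rw [h5] at h4
    exact h4
  · intro h
    apply hc0
    apply hinj2
    rw [map_zero]
    exact h
  · intro n hn h
    apply hroot n hn
    apply hinj2
    rw [map_pow, map_one]
    exact h

/-- the case of powers -/
theorem power_case {f : ℤ[X]} (hf : f ≠ 0) {α : ℂ} (hα : aeval α f = 0) (h0 : α ≠ 0)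
    (hroot : ∀ n : ℕ, 0 < n → α ^ n ≠ 1) {n : ℕ} (hn : 0 < n) (hdeg : Deg 3 (α ^ n)) :
    1.21 < (f.map (Int.castRingHom ℂ)).mahlerMeasure := by
  rcases red hf hα with h2 | ⟨hint, hle⟩
  · norm_num at h2 ⊢
    linarith
  have hintQ : IsIntegral ℚ α := hint.tower_top
  set E : IntermediateField ℚ ℂ := IntermediateField.adjoin ℚ {α} with hE
  set F : IntermediateField ℚ ℂ := IntermediateField.adjoin ℚ {α ^ n} with hF
  have hFE : F ≤ E := by
    rw [hF, IntermediateField.adjoin_le_iff]
    intro x hx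
    rw [Set.mem_singleton_iff] at hx
    rw [hx]
    exact pow_mem (IntermediateField.mem_adjoin_simple_self ℚ α) n
  have hfdE : FiniteDimensional ℚ E := IntermediateField.adjoin.finiteDimensional hintQ
  have hfdF : FiniteDimensional ℚ F := IntermediateField.adjoin.finiteDimensional (hintQ.pow n)
  have : NumberField E := ⟨⟩
  have : NumberField F := ⟨⟩
  letI : Algebra F E := (IntermediateField.inclusion hFE).toRingHom.toAlgebra
  set a : E := ⟨α, IntermediateField.mem_adjoin_simple_self ℚ α⟩ with ha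
  set b : F := ⟨α ^ n, IntermediateField.mem_adjoin_simple_self ℚ (α ^ n)⟩ with hb
  have hab : algebraMap F E b = a ^ n := by
    apply Subtype.ext
    rfl
  have htop : ∀ i : Algebra ℚ E, @IntermediateField.adjoin ℚ _ E _ i {a} = ⊤ := by
    intro i
    have hi : i = E.algebra' := Subsingleton.elim _ _
    subst hi
    apply IntermediateField.lift_injective E
    rw [IntermediateField.lift_adjoin, IntermediateField.lift_top]
    simp [ha, hE]
  have hpow : (Algebra.norm F a) ^ n = b ^ (finrank F E) := by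
    rw [← map_pow, ← hab, Algebra.norm_algebraMap]
  have : FiniteDimensional F E := FiniteDimensional.right ℚ F E
  have hr : 0 < finrank F E := finrank_pos
  refine norm_case E F (algebraMap E ℂ) a (htop _) ?_ hf hα ?_ ?_
  · intro h
    apply h0
    exact congrArg (algebraMap E ℂ) h
  · intro k hk h
    have h1 : b ^ (finrank F E * k) = 1 := by
      rw [pow_mul, ← hpow, ← pow_mul, mul_comm, pow_mul, h, one_pow]
    have h2 : (α ^ n) ^ (finrank F E * k) = 1 := by
      have := congrArg (algebraMap F ℂ) h1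
      rw [map_pow, map_one] at this
      exact this
    rw [← pow_mul] at h2
    exact hroot _ (by positivity) h2
  · refine Deg.mem hdeg ?_
    exact (Algebra.norm F a).2

end Pool.Agent.H10.LE
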