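import Mathlib
import Pool.Agent.H10.LE.Fin
import Pool.Graph.R_seed8.H338R2.Smyth2

/-!
# Lehmer's problem: reduction to numbers whose relative norms are roots of unity (helper10)
-/

set_option autoImplicit false

namespace Pool.Agent.H10.LE

open Polynomial Module

/-- the Mahler measure of an integer polynomial -/
noncomputable def MM (f : ℤ[X]) : ℝ := (f.map (Int.castRingHom ℂ)).mahlerMeasure

/-- the generator of a simple extension generates it -/
theorem gen_top {K : Type} [Field K] [NumberField K] (c : K) (E : IntermediateField ℚ K)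
    (hE : E = IntermediateField.adjoin ℚ {c}) (hc : c ∈ E) (i : Algebra ℚ E) :
    @IntermediateField.adjoin ℚ _ E _ i {(⟨c, hc⟩ : E)} = ⊤ := by
  have hi : i = E.algebra' := Subsingleton.elim _ _
  subst hi
  apply IntermediateField.lift_injective E
  rw [IntermediateField.lift_adjoin, IntermediateField.lift_top]
  simp [hE]

/-- the conclusion of the reduction -/
def Goal (M0 : ℝ) (d0 : ℕ) : Prop :=
  ∃ (E : Type) (_ : Field E) (_ : NumberField E) (a : E), IntermediateField.adjoin ℚ {a} = ⊤ ∧
    IsIntegral ℤ a ∧ a ≠ 0 ∧ (∀ n : ℕ, 0 < n → a ^ n ≠ 1) ∧ (minpoly ℤ a).natDegree ≤ d0 ∧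
    MM (minpoly ℤ a) ≤ M0 ∧
    ∀ F : IntermediateField ℚ E, F ≠ ⊤ → ∃ n : ℕ, 0 < n ∧ (Algebra.norm F a) ^ n = 1

theorem natDegree_minpoly_le (E : Type) [Field E] [NumberField E] (a : E) (ha : IsIntegral ℤ a) :
    (minpoly ℤ a).natDegree = (minpoly ℚ a).natDegree := by
  rw [minpoly.isIntegrallyClosed_eq_field_fractions' ℚ ha, (minpoly.monic ha).natDegree_map]

theorem descent : ∀ (d : ℕ) (E : Type) [Field E] [NumberField E] (a : E),
    IntermediateField.adjoin ℚ {a} = ⊤ → IsIntegral ℤ a → a ≠ 0 → (∀ n : ℕ, 0 < n → a ^ n ≠ 1) →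
    finrank ℚ E ≤ d → Goal (MM (minpoly ℤ a)) (minpoly ℤ a).natDegree := by
  intro d
  induction d with
  | zero =>
    intro E _ _ a _ _ _ _ hd
    have : 0 < finrank ℚ E := finrank_pos
    omega
  | succ d ih =>
    intro E _ _ a ha hint ha0 hroot hd
    by_cases hall : ∀ F : IntermediateField ℚ E, F ≠ ⊤ → ∃ n : ℕ, 0 < n ∧ (Algebra.norm F a) ^ n = 1
    · exact ⟨E, inferInstance, inferInstance, a, ha, hint, ha0, hroot, le_rfl, le_rfl, hall⟩
    · push Not at hall
      obtain ⟨F, hF, hFr⟩ := hall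
      set c := Algebra.norm F a with hc
      have hci : IsIntegral ℤ c := Algebra.isIntegral_norm F hint
      have hc0 : c ≠ 0 := Algebra.norm_ne_zero_iff.2 ha0
      have hM := M_norm E F a ha (minpoly ℤ a) (minpoly.monic hint) (minpoly.aeval ℤ a)
      have hltF : finrank ℚ F < finrank ℚ E := by
        have h1 : finrank ℚ F ≤ finrank ℚ E := Submodule.finrank_le F.toSubalgebra.toSubmodule
        refine lt_of_le_of_ne h1 fun h2 => hF ?_
        exact IntermediateField.eq_of_le_of_finrank_eq le_top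
          (h2.trans IntermediateField.finrank_top'.symm)
      set E' : IntermediateField ℚ F := IntermediateField.adjoin ℚ {c} with hE'
      have hcE : c ∈ E' := IntermediateField.mem_adjoin_simple_self ℚ c
      set c' : E' := ⟨c, hcE⟩ with hc'
      have hnf : NumberField E' := NumberField.of_intermediateField E'
      have hfr : finrank ℚ E' ≤ finrank ℚ F := Submodule.finrank_le E'.toSubalgebra.toSubmodule
      have hinj : Function.Injective (algebraMap E' F) := (algebraMap E' F).injective
      have hmc : minpoly ℤ c = minpoly ℤ c' :=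
        minpoly.algHom_eq (RingHom.toIntAlgHom (algebraMap E' F)) hinj c'
      have hci' : IsIntegral ℤ c' := by
        have := (isIntegral_algHom_iff (RingHom.toIntAlgHom (algebraMap E' F)) hinj (x := c')).1 hci
        exact this
      have h5 := ih E' c' (gen_top c E' hE' hcE _) hci' (fun h => hc0 (congrArg (algebraMap E' F) h))
        (fun n hn h => hFr n hn (by
          have := congrArg (algebraMap E' F) h
          rw [map_pow, map_one] at this
          exact this)) (by omega)
      obtain ⟨E2, i1, i2, b, h6, h7, h8, h9, h10, h11, h12⟩ := h5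
      refine ⟨E2, i1, i2, b, h6, h7, h8, h9, h10.trans ?_, h11.trans ?_, h12⟩
      · rw [← hmc, natDegree_minpoly_le F c hci, natDegree_minpoly_le E a hint]
        have h13 : (minpoly ℚ c).natDegree ≤ finrank ℚ F := minpoly.natDegree_le c
        have h14 : finrank ℚ E = (minpoly ℚ a).natDegree := by
          have h15 := IntermediateField.adjoin.finrank (K := ℚ) (x := a) (hint.tower_top)
          rw [ha, IntermediateField.finrank_top'] at h15
          exact h15
        omega
      · rw [← hmc]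
        exact hM

theorem one_lt_MM {p : ℤ[X]} (hp : p ≠ 0) {z : ℂ} (hz0 : z ≠ 0) (hz : aeval z p = 0)
    (hroot : ∀ n : ℕ, 0 < n → z ^ n ≠ 1) : 1 < MM p := by
  refine lt_of_le_of_ne (one_le_mahlerMeasure_of_ne_zero hp) fun h => ?_
  have hz' : z ∈ p.aroots ℂ := by
    rw [mem_aroots]
    exact ⟨hp, hz⟩
  obtain ⟨n, hn, hn1⟩ := pow_eq_one_of_mahlerMeasure_eq_one h.symm hz0 hz'
  exact hroot n hn hn1

/-- the constant coefficient of the minimal polynomial -/
theorem coeff_zero_abs {E : Type} [Field E] [NumberField E] {a : E} (hint : IsIntegral ℤ a)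
    (ha0 : a ≠ 0) (hM : MM (minpoly ℤ a) < 2) : |(minpoly ℤ a).coeff 0| = 1 := by
  have hc0 : (minpoly ℤ a).coeff 0 ≠ 0 := by
    intro h
    obtain ⟨r, hr⟩ : X ∣ minpoly ℤ a := X_dvd_iff.mpr h
    have hirr : Irreducible (minpoly ℤ a) := minpoly.irreducible hint
    have h2 : IsUnit r := by
      rcases hirr.isUnit_or_isUnit hr with h2 | h2
      · exact absurd h2 not_isUnit_X
      · exact h2
    obtain ⟨u, hu1, hu2⟩ := isUnit_iff.mp h2
    have h6 := minpoly.aeval ℤ a
    rw [hr, ← hu2, map_mul, aeval_X, aeval_C] at h6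
    rcases mul_eq_zero.1 h6 with h7 | h7
    · exact ha0 h7
    · have : IsUnit (algebraMap ℤ E u) := hu1.map _
      exact this.ne_zero h7
  by_contra h
  have h2 : 2 ≤ |(minpoly ℤ a).coeff 0| := by
    have := Int.one_le_abs hc0
    omega
  have hm := minpoly.monic hint
  have hpC0 : ((minpoly ℤ a).map (Int.castRingHom ℂ)).coeff 0 =
      (((minpoly ℤ a).coeff 0 : ℤ) : ℂ) := by
    rw [coeff_map]
    rfl
  have h3 := Polynomial.Splits.coeff_zero_eq_prod_roots_of_monic
    (IsAlgClosed.splits ((minpoly ℤ a).map (Int.castRingHom ℂ))) (hm.map _)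
  have h4 : (2 : ℝ) ≤
      (((minpoly ℤ a).map (Int.castRingHom ℂ)).roots.map (fun a => max 1 ‖a‖)).prod := by
    have h5 : ‖((minpoly ℤ a).map (Int.castRingHom ℂ)).roots.prod‖ =
        |(((minpoly ℤ a).coeff 0 : ℤ) : ℝ)| := by
      rw [hpC0] at h3
      have := congrArg norm h3
      rw [norm_mul, norm_pow, norm_neg, norm_one, one_pow, one_mul, Complex.norm_intCast] at this
      exact this.symm
    have h6 : ∀ t : Multiset ℂ, ‖t.prod‖ ≤ (t.map (fun a => max 1 ‖a‖)).prod := by
      intro t
      induction t using Multiset.induction_on with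
      | empty => simp
      | cons a t ih =>
        rw [Multiset.prod_cons, Multiset.map_cons, Multiset.prod_cons, norm_mul]
        exact mul_le_mul (le_max_right _ _) ih (norm_nonneg _)
          (le_trans zero_le_one (le_max_left _ _))
    refine le_trans ?_ (h6 _)
    rw [h5]
    exact_mod_cast h2
  unfold MM at hM
  rw [mahlerMeasure_eq_leadingCoeff_mul_prod_roots, (hm.map (Int.castRingHom ℂ)).leadingCoeff,
    norm_one, one_mul] at hM
  linarith

/-- the minimal polynomial is reciprocal -/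
theorem reciprocal {E : Type} [Field E] [NumberField E] {a : E} (hint : IsIntegral ℤ a)
    (ha0 : a ≠ 0) (hroot : ∀ n : ℕ, 0 < n → a ^ n ≠ 1) (hM : MM (minpoly ℤ a) ≤ 1.21) :
    (minpoly ℤ a).reverse = minpoly ℤ a := by
  have hm := minpoly.monic hint
  have h0 := coeff_zero_abs hint ha0 (by norm_num at hM ⊢; linarith)
  have hrec : minpoly ℤ a = C ((minpoly ℤ a).coeff 0) * (minpoly ℤ a).reverse := by
    by_contra hrecip
    have h1 := Pool.Agent.H338R2.smyth_lite hm h0 hrecip
    change MM (minpoly ℤ a) ≤ 2 * (MM (minpoly ℤ a) ^ 2 - 1) at h1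
    have h2 : 1 ≤ MM (minpoly ℤ a) := one_le_mahlerMeasure_of_ne_zero hm.ne_zero
    nlinarith
  rcases (abs_eq (by norm_num)).1 h0 with h1 | h1
  · rw [h1, map_one, one_mul] at hrec
    exact hrec.symm
  · exfalso
    rw [h1] at hrec
    have h2 : (minpoly ℤ a).eval 1 = 0 := by
      have h3 := congrArg (eval 1) hrec
      have h4 := (minpoly ℤ a).mirror_eval_one
      unfold mirror at h4
      rw [eval_mul, eval_pow, eval_X, one_pow, mul_one] at h4
      rw [eval_mul, eval_C, h4] at h3
      omega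
    have h4 : X - C (1 : ℤ) ∣ minpoly ℤ a := dvd_iff_isRoot.2 h2
    obtain ⟨q, hq⟩ := h4
    have hirr : Irreducible (minpoly ℤ a) := minpoly.irreducible hint
    rcases hirr.isUnit_or_isUnit hq with h5 | h5
    · exact not_isUnit_X_sub_C _ h5
    · obtain ⟨u, hu1, hu2⟩ := isUnit_iff.mp h5
      have h6 := minpoly.aeval ℤ a
      rw [hq, ← hu2, map_mul, map_sub, aeval_X, aeval_C, aeval_C, map_one] at h6
      rcases mul_eq_zero.1 h6 with h7 | h7
      · exact hroot 1 one_pos (by rw [pow_one]; exact sub_eq_zero.1 h7)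
      · have : IsUnit (algebraMap ℤ E u) := hu1.map _
        exact this.ne_zero h7

/-- the reduction -/
theorem reduction {f : ℤ[X]} (h1 : 1 < MM f) (h2 : MM f ≤ 1.21) :
    ∃ (E : Type) (_ : Field E) (_ : NumberField E) (a : E), IntermediateField.adjoin ℚ {a} = ⊤ ∧
      IsIntegral ℤ a ∧ (minpoly ℤ a).reverse = minpoly ℤ a ∧
      (minpoly ℤ a).natDegree ≤ f.natDegree ∧ 1 < MM (minpoly ℤ a) ∧ MM (minpoly ℤ a) ≤ MM f ∧
      (∀ F : IntermediateField ℚ E, F ≠ ⊤ → ∃ n : ℕ, 0 < n ∧ (Algebra.norm F a) ^ n = 1) ∧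
      ∀ n : ℕ, 0 < n → IntermediateField.adjoin ℚ {a ^ n} = ⊤ ∧
        ∀ ι : E →+* ℂ, ¬ Deg 3 (ι a ^ n) := by
  have hf : f ≠ 0 := by
    rintro rfl
    unfold MM at h1
    rw [Polynomial.map_zero, mahlerMeasure_zero] at h1
    linarith
  -- a zero which is neither zero nor a root of unity
  have hex : ∃ α : ℂ, aeval α f = 0 ∧ α ≠ 0 ∧ ∀ n : ℕ, 0 < n → α ^ n ≠ 1 := by
    by_contra hcon
    push Not at hcon
    have h3 : ∀ z ∈ (f.map (Int.castRingHom ℂ)).roots, max 1 ‖z‖ = 1 := by
      intro z hz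
      rw [mem_roots ((Polynomial.map_ne_zero_iff (RingHom.injective_int _)).2 hf), IsRoot.def,
        eval_map] at hz
      rcases eq_or_ne z 0 with hz0 | hz0
      · rw [hz0]
        simp
      · obtain ⟨n, hn, hn1⟩ := hcon z hz hz0
        have : ‖z‖ = 1 := by
          have h4 := congrArg norm hn1
          rw [norm_pow, norm_one] at h4
          exact (pow_eq_one_iff_of_nonneg (norm_nonneg _) hn.ne').1 h4
        rw [this]
        simp
    have h4 : ((f.map (Int.castRingHom ℂ)).roots.map (fun a => max 1 ‖a‖)).prod = 1 := by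
      refine Multiset.prod_eq_one fun x hx => ?_
      rw [Multiset.mem_map] at hx
      obtain ⟨z, hz, rfl⟩ := hx
      exact h3 z hz
    unfold MM at h1 h2
    rw [mahlerMeasure_eq_leadingCoeff_mul_prod_roots, h4, mul_one] at h1 h2
    have h5 : ‖(f.map (Int.castRingHom ℂ)).leadingCoeff‖ = |((f.leadingCoeff : ℤ) : ℝ)| := by
      rw [leadingCoeff_map_of_injective (RingHom.injective_int _)]
      simp
    rw [h5] at h1 h2
    have h6 : (1 : ℤ) < |f.leadingCoeff| := by exact_mod_cast h1
    have h7 : (2 : ℝ) ≤ |((f.leadingCoeff : ℤ) : ℝ)| := by exact_mod_cast h6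
    norm_num at h2
    linarith
  obtain ⟨α, hα, hα0, hroot⟩ := hex
  rcases red hf hα with h3 | ⟨hint, hle⟩
  · exfalso
    unfold MM at h2
    norm_num at h2
    linarith
  set E0 : IntermediateField ℚ ℂ := IntermediateField.adjoin ℚ {α} with hE0
  have hfd : FiniteDimensional ℚ E0 := IntermediateField.adjoin.finiteDimensional (hint.tower_top)
  have hnf : NumberField E0 := ⟨⟩
  have hαE : α ∈ E0 := IntermediateField.mem_adjoin_simple_self ℚ α
  set a0 : E0 := ⟨α, hαE⟩ with ha0
  have htop : ∀ i : Algebra ℚ E0, @IntermediateField.adjoin ℚ _ E0 _ i {a0} = ⊤ := by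
    intro i
    have hi : i = E0.algebra' := Subsingleton.elim _ _
    subst hi
    apply IntermediateField.lift_injective E0
    rw [IntermediateField.lift_adjoin, IntermediateField.lift_top]
    simp [ha0, hE0]
  have hinj : Function.Injective (algebraMap E0 ℂ) := (algebraMap E0 ℂ).injective
  have hm0 : minpoly ℤ α = minpoly ℤ a0 :=
    minpoly.algHom_eq (RingHom.toIntAlgHom (algebraMap E0 ℂ)) hinj a0
  have hint0 : IsIntegral ℤ a0 :=
    (isIntegral_algHom_iff (RingHom.toIntAlgHom (algebraMap E0 ℂ)) hinj (x := a0)).1 hint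
  obtain ⟨E, i1, i2, a, h4, h5, h6, h7, h8, h9, h10⟩ := descent (finrank ℚ E0) E0 a0 (htop _) hint0
    (fun h => hα0 (congrArg (algebraMap E0 ℂ) h))
    (fun n hn h => hroot n hn (by
      have := congrArg (algebraMap E0 ℂ) h
      rw [map_pow, map_one] at this
      exact this)) le_rfl
  have hle' : MM (minpoly ℤ a) ≤ MM f := by
    rw [← hm0] at h9
    exact h9.trans hle
  obtain ⟨ι0⟩ : Nonempty (E →+* ℂ) := ⟨(IsAlgClosed.lift : E →ₐ[ℚ] ℂ).toRingHom⟩
  have hιp : ∀ ι : E →+* ℂ, aeval (ι a) (minpoly ℤ a) = 0 := by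
    intro ι
    have h11 := congrArg ι (minpoly.aeval ℤ a)
    rw [map_zero, aeval_def, hom_eval₂] at h11
    rw [aeval_def]
    have h12 : ι.comp (algebraMap ℤ E) = algebraMap ℤ ℂ := RingHom.ext_int _ _
    rw [h12] at h11
    exact h11
  have hιr : ∀ ι : E →+* ℂ, ∀ n : ℕ, 0 < n → (ι a) ^ n ≠ 1 := by
    intro ι n hn h
    apply h7 n hn
    apply ι.injective
    rw [map_pow, map_one]
    exact h
  have hι0 : ∀ ι : E →+* ℂ, ι a ≠ 0 := by
    intro ι h
    apply h6
    apply ι.injective
    rw [map_zero]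
    exact h
  refine ⟨E, i1, i2, a, h4, h5, reciprocal h5 h6 h7 (hle'.trans h2), ?_,
    one_lt_MM (minpoly.ne_zero h5) (hι0 ι0) (hιp ι0) (hιr ι0), hle', h10, ?_⟩
  · refine h8.trans ?_
    rw [← hm0]
    exact natDegree_le_of_dvd (minpoly.isIntegrallyClosed_dvd hint hα) hf
  · intro n hn
    constructor
    · by_contra hne
      obtain ⟨k, hk, hk1⟩ := h10 _ hne
      set F := IntermediateField.adjoin ℚ {a ^ n} with hF
      set b : F := ⟨a ^ n, IntermediateField.mem_adjoin_simple_self ℚ (a ^ n)⟩ with hb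
      have hpow : (Algebra.norm F a) ^ n = b ^ (finrank F E) := by
        rw [← map_pow, ← Algebra.norm_algebraMap]
        rfl
      have hr : 0 < finrank F E := finrank_pos
      have h11 : b ^ (finrank F E * k) = 1 := by
        rw [pow_mul, ← hpow, ← pow_mul, mul_comm, pow_mul, hk1, one_pow]
      have h12 : (a ^ n) ^ (finrank F E * k) = 1 := by
        have := congrArg (algebraMap F E) h11
        rw [map_pow, map_one] at this
        exact this
      rw [← pow_mul] at h12
      exact h7 _ (by positivity) h12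
    · intro ι hdeg
      have h11 := power_case (minpoly.ne_zero h5) (hιp ι) (hι0 ι) (hιr ι) hn hdeg
      have h12 : MM (minpoly ℤ a) ≤ 1.21 := hle'.trans h2
      unfold MM at h12
      linarith

end Pool.Agent.H10.LE
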