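import Mathlib
import Pool.Agent.H10.LE.Red
import Pool.Graph.R_pool_sql_team_seeded_3997aac3.Q168.LA.Units

/-!
# Lehmer's problem: the automorphisms of the field of a reduced number (helper10)
-/

set_option autoImplicit false

namespace Pool.Agent.H10.LE

open Polynomial Module

variable {E : Type} [Field E] [NumberField E]

theorem alg_top {a : E} (ha : IntermediateField.adjoin ℚ {a} = ⊤) : Algebra.adjoin ℚ {a} = ⊤ := by
  have h2 := IntermediateField.adjoin_simple_toSubalgebra_of_isAlgebraic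
    (F := ℚ) (α := a) (Algebra.IsAlgebraic.isAlgebraic a)
  rw [ha, IntermediateField.top_toSubalgebra] at h2
  exact h2.symm

/-- automorphisms are determined by the image of a generator -/
theorem aut_ext {a : E} (ha : IntermediateField.adjoin ℚ {a} = ⊤) {σ τ : E ≃ₐ[ℚ] E}
    (h : σ a = τ a) : σ = τ := by
  have h1 : (σ : E →ₐ[ℚ] E) = (τ : E →ₐ[ℚ] E) := by
    refine AlgHom.ext_of_adjoin_eq_top (alg_top ha) ?_
    intro x hx
    rw [Set.mem_singleton_iff] at hx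
    subst hx
    exact h
  ext x
  exact DFunLike.congr_fun h1 x

/-- embeddings are determined by the image of a generator -/
theorem emb_ext {a : E} (ha : IntermediateField.adjoin ℚ {a} = ⊤) {σ τ : E →+* ℂ}
    (h : σ a = τ a) : σ = τ := by
  have h1 : σ.toRatAlgHom = τ.toRatAlgHom := by
    refine AlgHom.ext_of_adjoin_eq_top (alg_top ha) ?_
    intro x hx
    rw [Set.mem_singleton_iff] at hx
    subst hx
    exact h
  ext x
  exact DFunLike.congr_fun h1 x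

/-- the norm for an involution -/
theorem norm_invol {g : E ≃ₐ[ℚ] E} (hg : g ≠ 1) (hg2 : g * g = 1) :
    ∃ F : IntermediateField ℚ E, F ≠ ⊤ ∧ ∀ x : E, algebraMap F E (Algebra.norm F x) = x * g x := by
  classical
  set H : Subgroup (E ≃ₐ[ℚ] E) := Subgroup.zpowers g with hH
  refine ⟨IntermediateField.fixedField H, ?_, ?_⟩
  · intro h
    apply hg
    ext x
    have h1 : x ∈ IntermediateField.fixedField H := by rw [h]; exact IntermediateField.mem_top
    rw [IntermediateField.mem_fixedField_iff] at h1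
    exact h1 g (Subgroup.mem_zpowers g)
  · intro x
    set F := IntermediateField.fixedField H with hF
    have hcard : Nat.card (E ≃ₐ[F] E) = finrank F E := by
      rw [hF, IntermediateField.finrank_fixedField_eq_card]
      exact Nat.card_congr (IntermediateField.subgroupEquivAlgEquiv H).toEquiv.symm
    have hgal : IsGalois F E := IsGalois.of_card_aut_eq_finrank F E hcard
    rw [Algebra.norm_eq_prod_automorphisms]
    have h1 : ∏ σ : E ≃ₐ[F] E, σ x = ∏ h : H, (h : E ≃ₐ[ℚ] E) x := by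
      refine (Fintype.prod_equiv (IntermediateField.subgroupEquivAlgEquiv H).toEquiv _ _ ?_).symm
      intro h
      rfl
    rw [h1]
    have hne : (1 : H) ≠ ⟨g, Subgroup.mem_zpowers g⟩ := by
      intro h
      exact hg (congrArg Subtype.val h).symm
    have huniv : (Finset.univ : Finset H) = {1, ⟨g, Subgroup.mem_zpowers g⟩} := by
      ext ⟨h, hh⟩
      simp only [Finset.mem_univ, Finset.mem_insert, Finset.mem_singleton, true_iff]
      obtain ⟨k, rfl⟩ := Subgroup.mem_zpowers_iff.1 hh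
      rcases Int.even_or_odd' k with ⟨m, hm | hm⟩
      · left
        apply Subtype.ext
        change g ^ k = 1
        rw [hm, zpow_mul]
        have : g ^ (2 : ℤ) = 1 := by
          rw [zpow_ofNat, sq]
          exact hg2
        rw [this, one_zpow]
      · right
        apply Subtype.ext
        change g ^ k = g
        rw [hm, zpow_add, zpow_mul, zpow_one]
        have : g ^ (2 : ℤ) = 1 := by
          rw [zpow_ofNat, sq]
          exact hg2
        rw [this, one_zpow, one_mul]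
    rw [huniv, Finset.prod_pair hne]
    rfl

/-- the automorphism which inverts a -/
theorem exists_inv {a : E} (ha : IntermediateField.adjoin ℚ {a} = ⊤) (hint : IsIntegral ℤ a)
    (ha0 : a ≠ 0) (hrev : (minpoly ℤ a).reverse = minpoly ℤ a) : ∃ τ : E ≃ₐ[ℚ] E, τ a = a⁻¹ := by
  have h1 : aeval a⁻¹ (minpoly ℤ a) = 0 := by
    rw [← hrev]
    let _ : Invertible a := invertibleOfNonzero ha0
    have := (eval₂_reverse_eq_zero_iff (algebraMap ℤ E) a (minpoly ℤ a)).mpr (minpoly.aeval ℤ a)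
    rwa [invOf_eq_inv] at this
  have h2 : aeval a⁻¹ (minpoly ℚ a) = 0 := by
    rw [minpoly.isIntegrallyClosed_eq_field_fractions' ℚ hint, aeval_map_algebraMap]
    exact h1
  set pb := PowerBasis.ofAdjoinEqTop (K := ℚ) (x := a) (hint.tower_top) (alg_top ha) with hpb
  have hgen : pb.gen = a := rfl
  set φ : E →ₐ[ℚ] E := pb.lift a⁻¹ (by rw [hgen]; exact h2) with hφ
  have h3 : φ a = a⁻¹ := by
    have := pb.lift_gen a⁻¹ (by rw [hgen]; exact h2)
    exact this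
  exact ⟨AlgEquiv.ofBijective φ φ.bijective, h3⟩

/-- it is the only involution -/
theorem unique_inv {a : E}
    (hpow : ∀ n : ℕ, 0 < n → IntermediateField.adjoin ℚ {a ^ n} = ⊤)
    (hnorm : ∀ F : IntermediateField ℚ E, F ≠ ⊤ → ∃ n : ℕ, 0 < n ∧ (Algebra.norm F a) ^ n = 1)
    {τ g : E ≃ₐ[ℚ] E} (hτ : τ a = a⁻¹) (ha0 : a ≠ 0) (hg : g ≠ 1) (hg2 : g * g = 1) : g = τ := by
  obtain ⟨F, hF, hN⟩ := norm_invol hg hg2
  obtain ⟨n, hn, h1⟩ := hnorm F hF
  have h2 : (a * g a) ^ n = 1 := by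
    rw [← hN a, ← map_pow, h1, map_one]
  refine aut_ext (hpow n hn) ?_
  rw [map_pow, map_pow, hτ]
  rw [mul_pow] at h2
  have h3 : a ^ n ≠ 0 := pow_ne_zero n ha0
  rw [inv_pow]
  exact eq_inv_of_mul_eq_one_right h2

/-- not all conjugates are on the unit circle -/
theorem not_unit {a : E} (hint : IsIntegral ℤ a) (hM1 : 1 < MM (minpoly ℤ a))
    (h : ∀ σ : E →+* ℂ, ‖σ a‖ = 1) : False := by
  have h1 := M_le_H E a hint
  have h2 : H E a = 1 := by
    unfold H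
    refine Finset.prod_eq_one fun σ _ => ?_
    unfold LE.h
    rw [h σ, max_self]
  unfold MM at hM1
  linarith

theorem h_le {a : E} (ha : IntermediateField.adjoin ℚ {a} = ⊤) (hint : IsIntegral ℤ a)
    (hM2 : MM (minpoly ℤ a) ≤ 1.21) (σ : E →+* ℂ) : ‖σ a‖ ≤ 1.21 := by
  classical
  have h1 := H_le_M E a ha (minpoly ℤ a) (minpoly.monic hint) (minpoly.aeval ℤ a)
  have h2 : h (σ a) ≤ H E a := by
    have h3 := prod_sub (Finset.subset_univ {σ}) (fun τ : E →+* ℂ => τ a)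
    rw [Finset.prod_singleton] at h3
    exact h3
  have h4 : ‖σ a‖ ≤ h (σ a) := le_max_right _ _
  unfold MM at hM2
  linarith

/-- not all conjugates are real -/
theorem not_real {a : E} (ha : IntermediateField.adjoin ℚ {a} = ⊤) (hint : IsIntegral ℤ a)
    (ha0 : a ≠ 0) (hroot : ∀ n : ℕ, 0 < n → a ^ n ≠ 1) (hM2 : MM (minpoly ℤ a) ≤ 1.21)
    {τ : E ≃ₐ[ℚ] E} (hτ : τ a = a⁻¹)
    (h : ∀ σ : E →+* ℂ, (starRingEnd ℂ) (σ a) = σ a) : False := by
  classical
  set b : E := a - a⁻¹ with hb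
  have hb0 : b ≠ 0 := by
    intro h0
    apply hroot 2 two_pos
    have h1 : a = a⁻¹ := sub_eq_zero.1 h0
    rw [sq]
    nth_rewrite 2 [h1]
    exact mul_inv_cancel₀ ha0
  have hinti : IsIntegral ℤ a⁻¹ := by
    rw [← hτ]
    exact hint.map (τ : E →ₐ[ℚ] E)
  have hbi : IsIntegral ℤ b := hint.sub hinti
  have hN0 : Algebra.norm ℚ b ≠ 0 := Algebra.norm_ne_zero_iff.2 hb0
  obtain ⟨n, hn⟩ := IsIntegrallyClosed.isIntegral_iff.1 (Algebra.isIntegral_norm ℚ hbi)
  have hn0 : n ≠ 0 := by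
    rintro rfl
    rw [map_zero] at hn
    exact hN0 hn.symm
  have h1 : ‖((Algebra.norm ℚ b : ℚ) : ℂ)‖ = ∏ σ : E →ₐ[ℚ] ℂ, ‖σ b‖ := by
    have h2 := Algebra.norm_eq_prod_embeddings ℚ ℂ b
    rw [← norm_prod, ← h2]
    rfl
  have h2 : (1 : ℝ) ≤ ‖((Algebra.norm ℚ b : ℚ) : ℂ)‖ := by
    rw [← hn]
    have : (((algebraMap ℤ ℚ n : ℚ)) : ℂ) = ((n : ℤ) : ℂ) := by simp
    rw [this, Complex.norm_intCast]
    exact_mod_cast Int.one_le_abs hn0
  have h3 : ∀ σ : E →ₐ[ℚ] ℂ, ‖σ b‖ ≤ 1 / 2 := by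
    intro σ
    have g1 : ‖σ a‖ ≤ 1.21 := h_le ha hint hM2 (σ : E →+* ℂ)
    have g2 : ‖σ (τ a)‖ ≤ 1.21 := h_le ha hint hM2 ((σ : E →+* ℂ).comp (τ : E →+* E))
    rw [hτ, map_inv₀, _root_.norm_inv] at g2
    have hσ0 : σ a ≠ 0 := fun e => ha0 (σ.toRingHom.injective (by
      change σ a = σ 0
      rw [e, map_zero]))
    have hpos : 0 < ‖σ a‖ := norm_pos_iff.2 hσ0
    obtain ⟨x, hx⟩ : ∃ x : ℝ, σ a = (x : ℂ) := by
      have := Complex.conj_eq_iff_real.1 (h (σ : E →+* ℂ))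
      exact this
    rw [hb, map_sub, map_inv₀, hx]
    rw [hx, Complex.norm_real, Real.norm_eq_abs] at g1 g2 hpos
    have e : ((x : ℂ) - (x : ℂ)⁻¹) = ((x - x⁻¹ : ℝ) : ℂ) := by push_cast; rfl
    rw [e, Complex.norm_real, Real.norm_eq_abs]
    have g3 : |x| * |x|⁻¹ = 1 := mul_inv_cancel₀ hpos.ne'
    have hx0 : x ≠ 0 := abs_pos.1 hpos
    have g4 : 0 < |x|⁻¹ := inv_pos.2 hpos
    rcases lt_or_gt_of_ne hx0 with hneg | hpos'
    · rw [abs_of_neg hneg] at g1 g2 g3 g4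
      have e2 : (-x)⁻¹ = -x⁻¹ := inv_neg
      rw [e2] at g2 g3 g4
      rw [abs_le]
      constructor <;> nlinarith
    · rw [abs_of_pos hpos'] at g1 g2 g3 g4
      rw [abs_le]
      constructor <;> nlinarith
  have h4 : ∏ σ : E →ₐ[ℚ] ℂ, ‖σ b‖ ≤ 1 / 2 := by
    obtain ⟨σ0⟩ : Nonempty (E →ₐ[ℚ] ℂ) := ⟨IsAlgClosed.lift⟩
    rw [← Finset.mul_prod_erase Finset.univ _ (Finset.mem_univ σ0)]
    have h5 : ∏ σ ∈ Finset.univ.erase σ0, ‖σ b‖ ≤ 1 :=
      Finset.prod_le_one (fun _ _ => norm_nonneg _) fun σ _ => (h3 σ).trans (by norm_num)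
    calc ‖σ0 b‖ * ∏ σ ∈ Finset.univ.erase σ0, ‖σ b‖ ≤ (1 / 2) * 1 :=
          mul_le_mul (h3 σ0) h5 (Finset.prod_nonneg fun _ _ => norm_nonneg _) (by norm_num)
      _ = 1 / 2 := by norm_num
  rw [h1] at h2
  linarith

/-- complex conjugation does not come from one automorphism -/
theorem no_conj {a : E} (ha : IntermediateField.adjoin ℚ {a} = ⊤) (hint : IsIntegral ℤ a)
    (ha0 : a ≠ 0) (hroot : ∀ n : ℕ, 0 < n → a ^ n ≠ 1)
    (hM1 : 1 < MM (minpoly ℤ a)) (hM2 : MM (minpoly ℤ a) ≤ 1.21)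
    {τ : E ≃ₐ[ℚ] E} (hτ : τ a = a⁻¹)
    (huniq : ∀ g : E ≃ₐ[ℚ] E, g ≠ 1 → g * g = 1 → g = τ) (g : E ≃ₐ[ℚ] E)
    (hg : ∀ σ : E →+* ℂ, (starRingEnd ℂ) (σ a) = σ (g a)) : False := by
  have hgg : g * g = 1 := by
    refine aut_ext ha ?_
    obtain ⟨σ⟩ : Nonempty (E →+* ℂ) := ⟨(IsAlgClosed.lift : E →ₐ[ℚ] ℂ).toRingHom⟩
    have h1 := hg (σ.comp (g : E →+* E))
    have h2 : (starRingEnd ℂ) (σ (g a)) = σ (g (g a)) := h1
    rw [← hg σ, Complex.conj_conj] at h2
    change g (g a) = a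
    exact (σ.injective h2).symm
  by_cases h1 : g = 1
  · refine not_real ha hint ha0 hroot hM2 hτ fun σ => ?_
    rw [hg σ, h1]
    rfl
  · have h2 := huniq g h1 hgg
    refine not_unit hint hM1 fun σ => ?_
    have h3 := hg σ
    rw [h2, hτ, map_inv₀] at h3
    have hσ0 : σ a ≠ 0 := fun e => ha0 (σ.injective (by rw [e, map_zero]))
    have h4 : (σ a) * (starRingEnd ℂ) (σ a) = 1 := by
      rw [h3]
      exact mul_inv_cancel₀ hσ0
    rw [Complex.mul_conj, Complex.normSq_eq_norm_sq] at h4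
    have h5 : ‖σ a‖ ^ 2 = 1 := by exact_mod_cast h4
    exact (pow_eq_one_iff_of_nonneg (norm_nonneg _) two_ne_zero).1 h5

/-- the field is not Galois -/
theorem not_galois {a : E} (ha : IntermediateField.adjoin ℚ {a} = ⊤) (hint : IsIntegral ℤ a)
    (ha0 : a ≠ 0) (hroot : ∀ n : ℕ, 0 < n → a ^ n ≠ 1)
    (hM1 : 1 < MM (minpoly ℤ a)) (hM2 : MM (minpoly ℤ a) ≤ 1.21)
    {τ : E ≃ₐ[ℚ] E} (hτ : τ a = a⁻¹)
    (huniq : ∀ g : E ≃ₐ[ℚ] E, g ≠ 1 → g * g = 1 → g = τ) : ¬ IsGalois ℚ E := by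
  intro hgal
  have hex : ∀ σ : E →+* ℂ, ∃ s : E ≃ₐ[ℚ] E, (∀ x, (starRingEnd ℂ) (σ x) = σ (s x)) ∧ s * s = 1 := by
    intro σ
    obtain ⟨s, hs⟩ := Pool.Agent.Q168.LA.emb_eq σ ((starRingEnd ℂ).comp σ) a
    have h1 : (starRingEnd ℂ).comp σ = σ.comp (s : E →+* E) := emb_ext ha hs
    have h2 : ∀ x, (starRingEnd ℂ) (σ x) = σ (s x) := fun x => DFunLike.congr_fun h1 x
    refine ⟨s, h2, aut_ext ha ?_⟩
    have h3 := h2 (s a)
    rw [← h2 a, Complex.conj_conj] at h3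
    change s (s a) = a
    exact (σ.injective h3).symm
  obtain ⟨σ0⟩ : Nonempty (E →+* ℂ) := ⟨(IsAlgClosed.lift : E →ₐ[ℚ] ℂ).toRingHom⟩
  obtain ⟨s0, hs0, hs02⟩ := hex σ0
  refine no_conj ha hint ha0 hroot hM1 hM2 hτ huniq s0 fun σ => ?_
  obtain ⟨s, hs, hs2⟩ := hex σ
  suffices hss : s = s0 by rw [← hss]; exact hs a
  -- σ is σ0 after an automorphism
  obtain ⟨u, hu⟩ := Pool.Agent.Q168.LA.emb_eq σ0 σ a
  have hu1 : σ = σ0.comp (u : E →+* E) := emb_ext ha hu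
  have hu2 : ∀ x, σ x = σ0 (u x) := fun x => DFunLike.congr_fun hu1 x
  have hc : ∀ x, u (s x) = s0 (u x) := by
    intro x
    apply σ0.injective
    rw [← hu2, ← hs, hu2, hs0]
  by_cases h1 : s = 1
  · by_cases h2 : s0 = 1
    · rw [h1, h2]
    · exfalso
      apply h2
      ext y
      have h3 := hc (u.symm y)
      rw [h1] at h3
      have h4 : (1 : E ≃ₐ[ℚ] E) (u.symm y) = u.symm y := rfl
      rw [h4, AlgEquiv.apply_symm_apply] at h3
      exact h3.symm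
  · by_cases h2 : s0 = 1
    · exfalso
      apply h1
      ext x
      have h3 := hc x
      rw [h2] at h3
      exact u.injective h3
    · rw [huniq s h1 hs2, huniq s0 h2 hs02]

end Pool.Agent.H10.LE
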