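import Mathlib
import Pool.Agent.H10.LE.Aut

/-!
# Lehmer's problem: the reduction with the conditions on the automorphisms (helper10)
-/

set_option autoImplicit false

namespace Pool.Agent.H10.LE

open Polynomial Module

theorem ne_zero_of_MM {E : Type} [Field E] [NumberField E] {a : E} (hint : IsIntegral ℤ a)
    (hM1 : 1 < MM (minpoly ℤ a)) : a ≠ 0 := by
  rintro rfl
  have h1 := M_le_H E 0 hint
  have h2 : H E 0 = 1 := by
    unfold H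
    refine Finset.prod_eq_one fun σ _ => ?_
    unfold LE.h
    rw [map_zero, norm_zero]
    norm_num
  unfold MM at hM1
  linarith

theorem not_torsion_of_MM {E : Type} [Field E] [NumberField E] {a : E} (hint : IsIntegral ℤ a)
    (hM1 : 1 < MM (minpoly ℤ a)) (n : ℕ) (hn : 0 < n) : a ^ n ≠ 1 := by
  intro h
  refine not_unit hint hM1 fun σ => ?_
  have h1 : (σ a) ^ n = 1 := by rw [← map_pow, h, map_one]
  have h4 := congrArg norm h1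
  rw [norm_pow, norm_one] at h4
  exact (pow_eq_one_iff_of_nonneg (norm_nonneg _) hn.ne').1 h4

/-- the reduction -/
theorem reduction2 {f : ℤ[X]} (h1 : 1 < MM f) (h2 : MM f ≤ 1.21) :
    ∃ (E : Type) (_ : Field E) (_ : NumberField E) (a : E), IntermediateField.adjoin ℚ {a} = ⊤ ∧
      IsIntegral ℤ a ∧ (minpoly ℤ a).reverse = minpoly ℤ a ∧
      (minpoly ℤ a).natDegree ≤ f.natDegree ∧ 1 < MM (minpoly ℤ a) ∧ MM (minpoly ℤ a) ≤ MM f ∧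
      (∀ F : IntermediateField ℚ E, F ≠ ⊤ → ∃ n : ℕ, 0 < n ∧ (Algebra.norm F a) ^ n = 1) ∧
      (∀ n : ℕ, 0 < n → IntermediateField.adjoin ℚ {a ^ n} = ⊤ ∧
        ∀ ι : E →+* ℂ, ¬ Deg 3 (ι a ^ n)) ∧
      (∃ τ : E ≃ₐ[ℚ] E, τ a = a⁻¹ ∧ τ ≠ 1 ∧ ∀ g : E ≃ₐ[ℚ] E, g ≠ 1 → g * g = 1 → g = τ) ∧
      ¬ IsGalois ℚ E ∧
      ∀ g : E ≃ₐ[ℚ] E, ∃ ι : E →+* ℂ, (starRingEnd ℂ) (ι a) ≠ ι (g a) := by
  obtain ⟨E, i1, i2, a, g1, g2, g3, g4, g5, g6, g7, g8⟩ := reduction (f := f) h1 h2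
  have hM2 : MM (minpoly ℤ a) ≤ 1.21 := g6.trans h2
  have ha0 := ne_zero_of_MM g2 g5
  have hroot := not_torsion_of_MM g2 g5
  obtain ⟨τ, hτ⟩ := exists_inv g1 g2 ha0 g3
  have huniq : ∀ g : E ≃ₐ[ℚ] E, g ≠ 1 → g * g = 1 → g = τ := fun g hg hg2 =>
    unique_inv (fun n hn => (g8 n hn).1) g7 hτ ha0 hg hg2
  have hτ1 : τ ≠ 1 := by
    intro h
    rw [h] at hτ
    have h3 : a = a⁻¹ := hτ
    apply hroot 2 two_pos
    rw [sq]
    nth_rewrite 2 [h3]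
    exact mul_inv_cancel₀ ha0
  refine ⟨E, i1, i2, a, g1, g2, g3, g4, g5, g6, g7, g8, ⟨τ, hτ, hτ1, huniq⟩,
    not_galois g1 g2 ha0 hroot g5 hM2 hτ huniq, fun g => ?_⟩
  by_contra hcon
  push Not at hcon
  exact no_conj g1 g2 ha0 hroot g5 hM2 hτ huniq g hcon

end Pool.Agent.H10.LE
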