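import Mathlib
import Pool.Agent.H10.LE.Fin2

/-!
# Lehmer's problem: commuting automorphisms of prime order (helper10)
-/

set_option autoImplicit false
set_option linter.unusedSectionVars false

namespace Pool.Agent.H10.LE

open Polynomial Module

variable {E : Type} [Field E] [NumberField E]

/-- the norm for a group of automorphisms -/
theorem norm_grp (H : Subgroup (E ≃ₐ[ℚ] E)) (x : E) :
    algebraMap (IntermediateField.fixedField H) E
      (Algebra.norm (IntermediateField.fixedField H) x) = ∏ᶠ h : H, (h : E ≃ₐ[ℚ] E) x := by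
  classical
  set F := IntermediateField.fixedField H with hF
  have hcard : Nat.card (E ≃ₐ[F] E) = finrank F E := by
    rw [hF, IntermediateField.finrank_fixedField_eq_card]
    exact Nat.card_congr (IntermediateField.subgroupEquivAlgEquiv H).toEquiv.symm
  have hgal : IsGalois F E := IsGalois.of_card_aut_eq_finrank F E hcard
  rw [Algebra.norm_eq_prod_automorphisms, finprod_eq_prod_of_fintype]
  refine (Fintype.prod_equiv (IntermediateField.subgroupEquivAlgEquiv H).toEquiv _ _ ?_).symm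
  intro h
  rfl

/-- being a root of unity -/
def Tor (x : E) : Prop := ∃ n : ℕ, 0 < n ∧ x ^ n = 1

theorem Tor.mul {x y : E} (hx : Tor x) (hy : Tor y) : Tor (x * y) := by
  obtain ⟨n, hn, h1⟩ := hx
  obtain ⟨m, hm, h2⟩ := hy
  exact ⟨n * m, by positivity, by rw [mul_pow, pow_mul, h1, one_pow, mul_comm n m, pow_mul, h2,
    one_pow, one_mul]⟩

theorem Tor.one : Tor (1 : E) := ⟨1, one_pos, one_pow 1⟩

theorem Tor.prod {ι : Type*} (s : Finset ι) (f : ι → E) (h : ∀ i ∈ s, Tor (f i)) :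
    Tor (∏ i ∈ s, f i) := by
  classical
  induction s using Finset.induction_on with
  | empty => simpa using Tor.one
  | insert i s hi ih =>
    rw [Finset.prod_insert hi]
    exact (h i (Finset.mem_insert_self i s)).mul (ih fun j hj => h j (Finset.mem_insert_of_mem hj))

theorem Tor.map {x : E} (hx : Tor x) (g : E ≃ₐ[ℚ] E) : Tor (g x) := by
  obtain ⟨n, hn, h1⟩ := hx
  exact ⟨n, hn, by rw [← map_pow, h1, map_one]⟩

theorem Tor.of_mul {x y : E} (hxy : Tor (x * y)) (hy : Tor y) : Tor x := by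
  obtain ⟨n, hn, h1⟩ := hxy
  obtain ⟨m, hm, h2⟩ := hy
  refine ⟨n * m, by positivity, ?_⟩
  have h3 : (x * y) ^ (n * m) = 1 := by rw [pow_mul, h1, one_pow]
  rw [mul_pow, mul_comm n m, pow_mul y, h2, one_pow, mul_one] at h3
  rw [mul_comm n m]
  exact h3

/-- the norm of a reduced number for an automorphism of prime order -/
theorem tor_cyc {a : E}
    (hnorm : ∀ F : IntermediateField ℚ E, F ≠ ⊤ → ∃ n : ℕ, 0 < n ∧ (Algebra.norm F a) ^ n = 1)
    {g : E ≃ₐ[ℚ] E} (hg : g ≠ 1) {p : ℕ} (hp : p.Prime) (hgp : g ^ p = 1) :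
    Tor (∏ j ∈ Finset.range p, (g ^ j) a) := by
  classical
  have hfact : Fact p.Prime := ⟨hp⟩
  have hord : orderOf g = p := orderOf_eq_prime hgp hg
  set H : Subgroup (E ≃ₐ[ℚ] E) := Subgroup.zpowers g with hH
  have hF : IntermediateField.fixedField H ≠ ⊤ := by
    intro h
    apply hg
    ext x
    have h1 : x ∈ IntermediateField.fixedField H := by rw [h]; exact IntermediateField.mem_top
    rw [IntermediateField.mem_fixedField_iff] at h1
    exact h1 g (Subgroup.mem_zpowers g)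
  obtain ⟨n, hn, h1⟩ := hnorm _ hF
  have h2 := norm_grp H a
  have h3 : ∏ᶠ h : H, (h : E ≃ₐ[ℚ] E) a = ∏ j ∈ Finset.range p, (g ^ j) a := by
    rw [finprod_eq_prod_of_fintype]
    have hfin : IsOfFinOrder g := isOfFinOrder_iff_pow_eq_one.2 ⟨p, hp.pos, hgp⟩
    rw [← hord, Finset.prod_range (fun j => (g ^ j) a)]
    refine (Fintype.prod_equiv (finEquivZPowers hfin) _ _ ?_).symm
    intro i
    rfl
  refine ⟨n, hn, ?_⟩
  rw [← h3, ← h2, ← map_pow, h1, map_one]

/-- commuting automorphisms of the same prime order generate the same group -/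
theorem comm_aut {a : E} (hroot : ∀ n : ℕ, 0 < n → a ^ n ≠ 1)
    (hnorm : ∀ F : IntermediateField ℚ E, F ≠ ⊤ → ∃ n : ℕ, 0 < n ∧ (Algebra.norm F a) ^ n = 1)
    {p : ℕ} (hp : p.Prime) {g h : E ≃ₐ[ℚ] E} (hg : g ≠ 1) (hgp : g ^ p = 1) (hhp : h ^ p = 1)
    (hc : Commute g h) : h ∈ Subgroup.zpowers g := by
  classical
  by_contra hnot
  have hfact : Fact p.Prime := ⟨hp⟩
  have hordg : orderOf g = p := orderOf_eq_prime hgp hg
  -- all the elements g ^ i * h are different from one
  have hne : ∀ i : ℕ, g ^ i * h ≠ 1 := by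
    intro i e
    apply hnot
    have h1 : h = (g ^ i)⁻¹ := eq_inv_of_mul_eq_one_right e
    rw [h1]
    exact Subgroup.inv_mem _ (Subgroup.pow_mem _ (Subgroup.mem_zpowers g) i)
  have hpw : ∀ i : ℕ, (g ^ i * h) ^ p = 1 := by
    intro i
    rw [((hc.pow_left i).mul_pow p), ← pow_mul, mul_comm i p, pow_mul, hgp, one_pow, hhp, one_mul]
  have h1 : Tor (∏ i ∈ Finset.range p, ∏ j ∈ Finset.range p, ((g ^ i * h) ^ j) a) :=
    Tor.prod _ _ fun i _ => tor_cyc hnorm (hne i) hp (hpw i)
  have h2 : ∀ j ∈ Finset.range p, j ≠ 0 →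
      ∏ i ∈ Finset.range p, ((g ^ i * h) ^ j) a = (h ^ j) (∏ i ∈ Finset.range p, (g ^ i) a) := by
    intro j hj hj0
    rw [Finset.mem_range] at hj
    rw [map_prod]
    refine Finset.prod_nbij' (fun i => i * j % p) (fun i => i * (ZMod.val ((j : ZMod p)⁻¹)) % p)
      ?_ ?_ ?_ ?_ ?_
    · intro i _
      exact Finset.mem_range.2 (Nat.mod_lt _ hp.pos)
    · intro i _
      exact Finset.mem_range.2 (Nat.mod_lt _ hp.pos)
    · intro i hi
      rw [Finset.mem_range] at hi
      have : Fact p.Prime := ⟨hp⟩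
      have hj' : (j : ZMod p) ≠ 0 := by
        rw [Ne, ZMod.natCast_eq_zero_iff]
        exact fun e => hj0 (Nat.eq_zero_of_dvd_of_lt e hj)
      have e1 : ((i * j % p * ZMod.val ((j : ZMod p)⁻¹) % p : ℕ) : ZMod p) = (i : ZMod p) := by
        rw [ZMod.natCast_mod, Nat.cast_mul, ZMod.natCast_mod, Nat.cast_mul, ZMod.natCast_val,
          ZMod.cast_id, mul_assoc, mul_inv_cancel₀ hj', mul_one]
      have e2 := (ZMod.natCast_eq_natCast_iff' _ _ _).1 e1
      rwa [Nat.mod_mod, Nat.mod_eq_of_lt hi] at e2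
    · intro i hi
      rw [Finset.mem_range] at hi
      have : Fact p.Prime := ⟨hp⟩
      have hj' : (j : ZMod p) ≠ 0 := by
        rw [Ne, ZMod.natCast_eq_zero_iff]
        exact fun e => hj0 (Nat.eq_zero_of_dvd_of_lt e hj)
      have e1 : ((i * ZMod.val ((j : ZMod p)⁻¹) % p * j % p : ℕ) : ZMod p) = (i : ZMod p) := by
        rw [ZMod.natCast_mod, Nat.cast_mul, ZMod.natCast_mod, Nat.cast_mul, ZMod.natCast_val,
          ZMod.cast_id, mul_assoc, inv_mul_cancel₀ hj', mul_one]
      have e2 := (ZMod.natCast_eq_natCast_iff' _ _ _).1 e1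
      rwa [Nat.mod_mod, Nat.mod_eq_of_lt hi] at e2
    · intro i _
      have e3 : (g ^ i * h) ^ j = h ^ j * g ^ (i * j % p) := by
        rw [((hc.pow_left i).mul_pow j), ← pow_mul]
        have e4 : g ^ (i * j) = g ^ (i * j % p) := by
          rw [← hordg, pow_mod_orderOf]
        rw [e4]
        exact ((hc.pow_left _).pow_right _).eq
      rw [e3]
      rfl
  have h3 : ∏ i ∈ Finset.range p, ∏ j ∈ Finset.range p, ((g ^ i * h) ^ j) a =
      a ^ p * ∏ j ∈ (Finset.range p).erase 0, (h ^ j) (∏ i ∈ Finset.range p, (g ^ i) a) := by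
    rw [Finset.prod_comm, ← Finset.mul_prod_erase (Finset.range p) _ (Finset.mem_range.2 hp.pos)]
    congr 1
    · simp
    · refine Finset.prod_congr rfl fun j hj => ?_
      rw [Finset.mem_erase] at hj
      exact h2 j hj.2 hj.1
  rw [h3] at h1
  have h4 : Tor (∏ j ∈ (Finset.range p).erase 0, (h ^ j) (∏ i ∈ Finset.range p, (g ^ i) a)) :=
    Tor.prod _ _ fun j _ => (tor_cyc hnorm hg hp hgp).map _
  obtain ⟨n, hn, h5⟩ := h1.of_mul h4
  rw [← pow_mul] at h5
  exact hroot _ (Nat.mul_pos hp.pos hn) h5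

end Pool.Agent.H10.LE
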