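import Mathlib
import Pool.Agent.H10.LE.Cyc

/-!
# Lehmer's problem: groups of automorphisms with a partition (helper10)
-/

set_option autoImplicit false
set_option linter.unusedSectionVars false

namespace Pool.Agent.H10.LE

open Polynomial Module

variable {E : Type} [Field E] [NumberField E]

open Classical in
/-- the norm of a reduced number for a nontrivial group of automorphisms -/
theorem tor_grp {a : E}
    (hnorm : ∀ F : IntermediateField ℚ E, F ≠ ⊤ → ∃ n : ℕ, 0 < n ∧ (Algebra.norm F a) ^ n = 1)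
    (H : Subgroup (E ≃ₐ[ℚ] E)) (hH : H ≠ ⊥) :
    Tor (∏ g ∈ Finset.univ.filter (fun g : E ≃ₐ[ℚ] E => g ∈ H), g a) := by
  have hF : IntermediateField.fixedField H ≠ ⊤ := by
    intro h
    apply hH
    rw [Subgroup.eq_bot_iff_forall]
    intro g hg
    ext x
    have h1 : x ∈ IntermediateField.fixedField H := by rw [h]; exact IntermediateField.mem_top
    rw [IntermediateField.mem_fixedField_iff] at h1
    exact h1 g hg
  obtain ⟨n, hn, h1⟩ := hnorm _ hF
  have h2 := norm_grp H a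
  have h3 : ∏ᶠ h : H, (h : E ≃ₐ[ℚ] E) a =
      ∏ g ∈ Finset.univ.filter (fun g : E ≃ₐ[ℚ] E => g ∈ H), g a := by
    rw [finprod_eq_prod_of_fintype]
    exact (Finset.prod_subtype (Finset.univ.filter (fun g : E ≃ₐ[ℚ] E => g ∈ H))
      (fun x => by simp) (fun g : E ≃ₐ[ℚ] E => g a)).symm
  refine ⟨n, hn, ?_⟩
  rw [← h3, ← h2, ← map_pow, h1, map_one]

/-- no group of automorphisms has a nontrivial partition into subgroups -/
theorem no_partition {a : E} (hroot : ∀ n : ℕ, 0 < n → a ^ n ≠ 1)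
    (hnorm : ∀ F : IntermediateField ℚ E, F ≠ ⊤ → ∃ n : ℕ, 0 < n ∧ (Algebra.norm F a) ^ n = 1)
    {k : ℕ} (hk : 2 ≤ k) (H : Fin k → Subgroup (E ≃ₐ[ℚ] E)) (hne : ∀ i, H i ≠ ⊥)
    (hdis : ∀ i j, i ≠ j → H i ⊓ H j = ⊥) (G : Subgroup (E ≃ₐ[ℚ] E)) :
    (G : Set (E ≃ₐ[ℚ] E)) ≠ ⋃ i, (H i : Set (E ≃ₐ[ℚ] E)) := by
  classical
  intro hun
  have hmem : ∀ g : E ≃ₐ[ℚ] E, g ∈ G ↔ ∃ i, g ∈ H i := by
    intro g
    have h1 := Set.ext_iff.1 hun g
    simpa using h1
  set S : Subgroup (E ≃ₐ[ℚ] E) → Finset (E ≃ₐ[ℚ] E) := fun K => Finset.univ.filter (fun g => g ∈ K)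
    with hS
  have hsplit : ∀ K : Subgroup (E ≃ₐ[ℚ] E), ∏ g ∈ S K, g a = a * ∏ g ∈ (S K).erase 1, g a := by
    intro K
    have h1 : (1 : E ≃ₐ[ℚ] E) ∈ S K := by simp [hS]
    exact (Finset.mul_prod_erase (S K) (fun g : E ≃ₐ[ℚ] E => g a) h1).symm
  have hG : G ≠ ⊥ := by
    intro e
    apply hne ⟨0, by omega⟩
    rw [Subgroup.eq_bot_iff_forall]
    intro g hg
    have h1 : g ∈ G := (hmem _).2 ⟨_, hg⟩
    rw [e, Subgroup.mem_bot] at h1
    exact h1
  have hbi : (S G).erase 1 = (Finset.univ : Finset (Fin k)).biUnion fun i => (S (H i)).erase 1 := by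
    ext g
    simp only [hS, Finset.mem_erase, Finset.mem_filter, Finset.mem_univ, true_and,
      Finset.mem_biUnion, hmem]
    constructor
    · rintro ⟨h1, i, h2⟩
      exact ⟨i, h1, h2⟩
    · rintro ⟨i, h1, h2⟩
      exact ⟨h1, i, h2⟩
  have hprod : ∏ g ∈ (S G).erase 1, g a = ∏ i, ∏ g ∈ (S (H i)).erase 1, g a := by
    rw [hbi, Finset.prod_biUnion]
    intro i _ j _ hij
    rw [Function.onFun, Finset.disjoint_left]
    intro g h1 h2
    simp only [hS, Finset.mem_erase, Finset.mem_filter, Finset.mem_univ, true_and] at h1 h2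
    have h3 : g ∈ H i ⊓ H j := ⟨h1.2, h2.2⟩
    rw [hdis i j hij, Subgroup.mem_bot] at h3
    exact h1.1 h3
  have h1 : Tor (∏ i, ∏ g ∈ S (H i), g a) := Tor.prod _ _ fun i _ => tor_grp hnorm (H i) (hne i)
  have h2 : Tor (∏ g ∈ S G, g a) := tor_grp hnorm G hG
  have h3 : ∏ i, ∏ g ∈ S (H i), g a = a ^ (k - 1) * ∏ g ∈ S G, g a := by
    rw [Finset.prod_congr rfl fun i _ => hsplit (H i), Finset.prod_mul_distrib, ← hprod,
      Finset.prod_const, Finset.card_univ, Fintype.card_fin, hsplit G, ← mul_assoc, ← pow_succ,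
      Nat.sub_add_cancel (by omega)]
  rw [h3] at h1
  obtain ⟨n, hn, h5⟩ := h1.of_mul h2
  rw [← pow_mul] at h5
  exact hroot _ (Nat.mul_pos (by omega) hn) h5

theorem zpowers_eq_of_mem {A : Type*} [Group A] [Finite A] {g x : A} (hg : (orderOf g).Prime)
    (hx : x ∈ Subgroup.zpowers g) (hx1 : x ≠ 1) : Subgroup.zpowers x = Subgroup.zpowers g := by
  refine Subgroup.eq_of_le_of_card_ge (Subgroup.zpowers_le.2 hx) ?_
  rw [Nat.card_zpowers, Nat.card_zpowers]
  rcases (Nat.dvd_prime hg).1 (orderOf_dvd_of_mem_zpowers hx) with h | h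
  · exact absurd (orderOf_eq_one_iff.1 h) hx1
  · exact h.ge

/-- a finite group in which all nontrivial elements have prime order is cyclic or has a partition -/
theorem part_of_prime {A : Type*} [Group A] [Finite A] (G : Subgroup A)
    (hG : ∀ g ∈ G, g ≠ 1 → (orderOf g).Prime) (hc : ¬ ∃ g, Subgroup.zpowers g = G) :
    ∃ (k : ℕ) (H : Fin k → Subgroup A), 2 ≤ k ∧ (∀ i, H i ≠ ⊥) ∧ (∀ i j, i ≠ j → H i ⊓ H j = ⊥) ∧
      (G : Set A) = ⋃ i, (H i : Set A) := by
  classical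
  set T : Set (Subgroup A) := {K | ∃ g ∈ G, g ≠ 1 ∧ K = Subgroup.zpowers g} with hT
  have hTfin : T.Finite := Set.toFinite T
  set e := hTfin.toFinset.equivFin with he
  have hmem : ∀ i, ∃ g ∈ G, g ≠ 1 ∧
      ((e.symm i : hTfin.toFinset) : Subgroup A) = Subgroup.zpowers g := by
    intro i
    have h1 := (e.symm i).2
    rw [Set.Finite.mem_toFinset] at h1
    exact h1
  have hk : 2 ≤ hTfin.toFinset.card := by
    by_contra hlt
    have h1 : hTfin.toFinset.card ≤ 1 := by omega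
    rw [Finset.card_le_one] at h1
    apply hc
    by_cases h2 : ∃ g ∈ G, g ≠ 1
    · obtain ⟨g, hg, hg1⟩ := h2
      refine ⟨g, le_antisymm (Subgroup.zpowers_le.2 hg) fun x hx => ?_⟩
      by_cases hx1 : x = 1
      · rw [hx1]; exact Subgroup.one_mem _
      · have h3 := h1 (Subgroup.zpowers x) (by
          rw [Set.Finite.mem_toFinset]; exact ⟨x, hx, hx1, rfl⟩) (Subgroup.zpowers g) (by
          rw [Set.Finite.mem_toFinset]; exact ⟨g, hg, hg1, rfl⟩)
        rw [← h3]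
        exact Subgroup.mem_zpowers x
    · push Not at h2
      refine ⟨1, ?_⟩
      rw [Subgroup.zpowers_one_eq_bot]
      exact ((Subgroup.eq_bot_iff_forall G).2 h2).symm
  refine ⟨_, fun i => ((e.symm i : hTfin.toFinset) : Subgroup A), hk, ?_, ?_, ?_⟩
  · intro i h
    obtain ⟨g, hg, hg1, h2⟩ := hmem i
    simp only at h
    rw [h2, Subgroup.zpowers_eq_bot] at h
    exact hg1 h
  · intro i j hij
    obtain ⟨g, hg, hg1, h2⟩ := hmem i
    obtain ⟨g', hg', hg1', h2'⟩ := hmem j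
    simp only
    rw [h2, h2', Subgroup.eq_bot_iff_forall]
    rintro x ⟨hx, hx'⟩
    by_contra hx1
    have h3 := zpowers_eq_of_mem (hG g hg hg1) hx hx1
    have h4 := zpowers_eq_of_mem (hG g' hg' hg1') hx' hx1
    apply hij
    apply e.symm.injective
    apply Subtype.ext
    rw [h2, h2', ← h3, ← h4]
  · ext x
    simp only [SetLike.mem_coe, Set.mem_iUnion]
    constructor
    · intro hx
      by_cases hx1 : x = 1
      · exact ⟨⟨0, by omega⟩, by rw [hx1]; exact Subgroup.one_mem _⟩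
      · refine ⟨e ⟨Subgroup.zpowers x, ?_⟩, ?_⟩
        · rw [Set.Finite.mem_toFinset]; exact ⟨x, hx, hx1, rfl⟩
        · rw [Equiv.symm_apply_apply]
          exact Subgroup.mem_zpowers x
    · rintro ⟨i, hi⟩
      obtain ⟨g, hg, hg1, h2⟩ := hmem i
      rw [h2] at hi
      exact (Subgroup.zpowers_le.2 hg) hi

/-- a group of order `p * q` is cyclic or all its nontrivial elements have prime order -/
theorem pq_prime {A : Type*} [Group A] [Finite A] (G : Subgroup A) {p q : ℕ} (hp : p.Prime)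
    (hq : q.Prime) (hG : Nat.card G = p * q) (hc : ¬ ∃ g, Subgroup.zpowers g = G) :
    ∀ g ∈ G, g ≠ 1 → (orderOf g).Prime := by
  intro g hg hg1
  have h1 : orderOf g ∣ p * q := by
    rw [← hG, ← Nat.card_zpowers]
    exact Subgroup.card_dvd_of_le (Subgroup.zpowers_le.2 hg)
  have h2 : orderOf g ≠ p * q := by
    intro h
    apply hc
    refine ⟨g, Subgroup.eq_of_le_of_card_ge (Subgroup.zpowers_le.2 hg) ?_⟩
    rw [Nat.card_zpowers, hG, h]
  obtain ⟨a, b, ha, hb, hab⟩ := (Nat.dvd_mul).1 h1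
  have h3 : orderOf g ≠ 1 := fun h => hg1 (orderOf_eq_one_iff.1 h)
  rcases (Nat.dvd_prime hp).1 ha with ha | ha <;> rcases (Nat.dvd_prime hq).1 hb with hb | hb
  · rw [ha, hb, one_mul] at hab
    exact absurd hab.symm h3
  · rw [ha, hb, one_mul] at hab
    rw [← hab]; exact hq
  · rw [ha, hb, mul_one] at hab
    rw [← hab]; exact hp
  · rw [ha, hb] at hab
    exact absurd hab.symm h2

/-- groups of automorphisms of order `p * q` are cyclic -/
theorem pq_cyclic {a : E} (hroot : ∀ n : ℕ, 0 < n → a ^ n ≠ 1)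
    (hnorm : ∀ F : IntermediateField ℚ E, F ≠ ⊤ → ∃ n : ℕ, 0 < n ∧ (Algebra.norm F a) ^ n = 1)
    {p q : ℕ} (hp : p.Prime) (hq : q.Prime) (G : Subgroup (E ≃ₐ[ℚ] E)) (hG : Nat.card G = p * q) :
    IsCyclic G := by
  by_contra hcyc
  have hc : ¬ ∃ g, Subgroup.zpowers g = G := by
    rintro ⟨g, rfl⟩
    exact hcyc inferInstance
  obtain ⟨k, H, hk, h1, h2, h3⟩ := part_of_prime G (pq_prime G hp hq hG hc) hc
  exact no_partition hroot hnorm hk H h1 h2 G h3

end Pool.Agent.H10.LE
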