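import Mathlib
import Pool.Agent.H10.LE.Part

/-!
# Lehmer's problem: a reduced number is orthogonal to all proper subfields (helper10)
-/

set_option autoImplicit false
set_option linter.unusedSectionVars false

namespace Pool.Agent.H10.LE

open Polynomial Module

/-- a number whose norm to `F` is a root of unity is orthogonal to the elements of `F` -/
theorem orth (E F : Type) [Field E] [Field F] [NumberField E] [NumberField F] [Algebra F E] (a : E)
    (ha : a ≠ 0) (u : F) (hN : ∃ n : ℕ, 0 < n ∧ (Algebra.norm F a) ^ n = 1) :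
    ∑ σ : E →ₐ[ℚ] ℂ, Real.log ‖σ a‖ * Real.log ‖σ (algebraMap F E u)‖ = 0 := by
  classical
  rw [Fintype.sum_equiv (algHomEquivSigma (A := ℚ) (B := F) (C := E) (D := ℂ))
    (fun σ : E →ₐ[ℚ] ℂ => Real.log ‖σ a‖ * Real.log ‖σ (algebraMap F E u)‖)
    (fun σ => Real.log ‖σ.2 a‖ * Real.log ‖σ.1 u‖), ← Finset.univ_sigma_univ, Finset.sum_sigma]
  · refine Finset.sum_eq_zero fun τ _ => ?_
    let _ : Algebra F ℂ := τ.toRingHom.toAlgebra
    have h1 : τ (Algebra.norm F a) = ∏ σ : E →ₐ[F] ℂ, σ a := by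
      have h2 := Algebra.norm_eq_prod_embeddings F ℂ a
      exact h2
    have h3 : ∑ σ : E →ₐ[F] ℂ, Real.log ‖σ a‖ = 0 := by
      rw [← Real.log_prod (fun σ _ => by
        rw [norm_ne_zero_iff]
        exact (map_ne_zero_iff σ σ.toRingHom.injective).2 ha), ← norm_prod, ← h1]
      obtain ⟨n, hn, h4⟩ := hN
      have h5 : ‖τ (Algebra.norm F a)‖ ^ n = 1 := by
        rw [← norm_pow, ← map_pow, h4, map_one, norm_one]
      rw [(pow_eq_one_iff_of_nonneg (norm_nonneg _) hn.ne').1 h5, Real.log_one]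
    have h4 : ∑ σ : E →ₐ[F] ℂ, Real.log ‖σ a‖ * Real.log ‖τ u‖ = 0 := by
      rw [← Finset.sum_mul, h3, zero_mul]
    exact h4
  · intro σ
    rfl

variable {E : Type} [Field E] [NumberField E]

/-- no power of a reduced number is a product of elements of proper subfields -/
theorem no_prod {a : E} (hint : IsIntegral ℤ a) (hM1 : 1 < MM (minpoly ℤ a))
    (hnorm : ∀ F : IntermediateField ℚ E, F ≠ ⊤ → ∃ n : ℕ, 0 < n ∧ (Algebra.norm F a) ^ n = 1)
    {k : ℕ} (F : Fin k → IntermediateField ℚ E) (hF : ∀ i, F i ≠ ⊤) (u : Fin k → E)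
    (hu : ∀ i, u i ∈ F i) {n : ℕ} (hn : 0 < n) : a ^ n ≠ ∏ i, u i := by
  classical
  intro hprod
  have ha : a ≠ 0 := ne_zero_of_MM hint hM1
  have hu0 : ∀ i, u i ≠ 0 := by
    intro i h0
    apply pow_ne_zero n ha
    rw [hprod]
    exact Finset.prod_eq_zero (Finset.mem_univ i) h0
  have h1 : ∀ i, ∑ σ : E →ₐ[ℚ] ℂ, Real.log ‖σ a‖ * Real.log ‖σ (u i)‖ = 0 := by
    intro i
    exact orth E (F i) a ha ⟨u i, hu i⟩ (hnorm (F i) (hF i))
  have h2 : ∑ σ : E →ₐ[ℚ] ℂ, Real.log ‖σ a‖ * Real.log ‖σ (a ^ n)‖ = 0 := by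
    rw [hprod]
    have h3 : ∀ σ : E →ₐ[ℚ] ℂ, Real.log ‖σ a‖ * Real.log ‖σ (∏ i, u i)‖ =
        ∑ i, Real.log ‖σ a‖ * Real.log ‖σ (u i)‖ := by
      intro σ
      rw [map_prod, norm_prod, Real.log_prod (fun i _ => by
        rw [norm_ne_zero_iff]
        exact (map_ne_zero_iff σ σ.toRingHom.injective).2 (hu0 i)), Finset.mul_sum]
    rw [Finset.sum_congr rfl fun σ _ => h3 σ, Finset.sum_comm]
    exact Finset.sum_eq_zero fun i _ => h1 i
  have h4 : ∑ σ : E →ₐ[ℚ] ℂ, (n : ℝ) * (Real.log ‖σ a‖) ^ 2 = 0 := by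
    rw [← h2]
    refine Finset.sum_congr rfl fun σ _ => ?_
    rw [map_pow, norm_pow, Real.log_pow]
    ring
  have h5 : ∀ σ : E →ₐ[ℚ] ℂ, ‖σ a‖ = 1 := by
    intro σ
    have h6 := (Finset.sum_eq_zero_iff_of_nonneg (fun σ _ => by positivity)).1 h4 σ
      (Finset.mem_univ σ)
    have h7 : Real.log ‖σ a‖ = 0 := by
      have hn' : (n : ℝ) ≠ 0 := by exact_mod_cast hn.ne'
      have h8 := (mul_eq_zero.1 h6).resolve_left hn'
      exact pow_eq_zero_iff (two_ne_zero) |>.1 h8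
    have h9 : ‖σ a‖ ≠ 0 := by
      rw [norm_ne_zero_iff]
      exact (map_ne_zero_iff σ σ.toRingHom.injective).2 ha
    rcases Real.log_eq_zero.1 h7 with h | h | h
    · exact absurd h h9
    · exact h
    · have := norm_nonneg (σ a)
      rw [h] at this
      norm_num at this
  have h6 : H E a = 1 := by
    unfold H
    refine Finset.prod_eq_one fun σ _ => ?_
    unfold h
    have h7 := h5 (RingHom.equivRatAlgHom E ℂ σ)
    have h8 : ‖σ a‖ = 1 := h7
    rw [h8, max_self]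
  have h7 := M_le_H E a hint
  rw [h6] at h7
  exact absurd hM1 (not_lt.2 h7)

end Pool.Agent.H10.LE
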