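import Mathlib
import Pool.Agent.H10.LE.Red

/-!
# Lehmer's problem: nonreciprocal relative norms (helper10)
-/

set_option autoImplicit false

namespace Pool.Agent.H10.LE

open Polynomial Module

/-- a relative norm which is not reciprocal -/
theorem rec_case (E F : Type) [Field E] [Field F] [NumberField E] [NumberField F] [Algebra F E]
    (ι : E →+* ℂ) (a : E) (ha : IntermediateField.adjoin ℚ {a} = ⊤) (ha0 : a ≠ 0) {f : ℤ[X]}
    (hf : f ≠ 0) (hfa : aeval (ι a) f = 0)
    (hroot : ∀ n : ℕ, 0 < n → (Algebra.norm F a) ^ n ≠ 1)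
    (hrec : (minpoly ℤ (Algebra.norm F a)).reverse ≠ minpoly ℤ (Algebra.norm F a)) :
    1.21 < (f.map (Int.castRingHom ℂ)).mahlerMeasure := by
  rcases red hf hfa with h2 | ⟨hint, hle⟩
  · norm_num at h2 ⊢
    linarith
  have hιinj : Function.Injective ι := ι.injective
  have hinta : IsIntegral ℤ a := by
    have := (isIntegral_algHom_iff (RingHom.toIntAlgHom ι) hιinj (x := a)).1 hint
    exact this
  have hm : minpoly ℤ (ι a) = minpoly ℤ a :=
    minpoly.algHom_eq (RingHom.toIntAlgHom ι) hιinj a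
  have h1 := M_norm E F a ha (minpoly ℤ a) (minpoly.monic hinta) (minpoly.aeval ℤ a)
  rw [hm] at hle
  refine lt_of_lt_of_le ?_ (h1.trans hle)
  by_contra hcon
  push Not at hcon
  exact hrec (reciprocal (Algebra.isIntegral_norm F hinta) (Algebra.norm_ne_zero_iff.2 ha0) hroot hcon)

end Pool.Agent.H10.LE
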